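import Mathlib

set_option autoImplicit false

/-!
# No three preperiodic points of `z ^ 2 + z` sum to `1`

With `w = z + 1 / 2` the map becomes `w ↦ w ^ 2 + 1 / 4`.  We show that every preperiodic point
`w` in `ℂ` has real part less than `5 / 6` (the supremum of the real part over the Julia set is
about `0.8315`), so that `z` has real part less than `1 / 3`.  The region
`5 / 6 ≤ Re w`, `‖w‖ ≤ 1.2072`, `0 ≤ Im w` is covered by finitely many discs; for each of them some
iterate is outside the disc of radius `1.2072` around `0`.  This is checked by disc arithmetic with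
integers (a disc is given by `a, b, r`: centre `(a + b i) / N`, radius `r / N`, `N = 2 ^ 20`).
-/

namespace Pool.Agent.Results.MP_a37635_nt.NoSumOne

/-- A point is preperiodic if its forward orbit is finite. -/
def Preperiodic {A : Type*} (f : A → A) (x : A) : Prop :=
  (Set.range fun n : ℕ => f^[n] x).Finite

/-! ### The checker -/

/-- An upper bound for `√(a ^ 2 + b ^ 2)` (verified by `esc`). -/
def bd (a b : ℤ) : ℤ := max |a| |b| + (min |a| |b|) ^ 2 / (2 * max |a| |b|) + 1

/-- `esc k a b r`: for some `j ≤ k` the `j`-th iterate of the disc `(a, b, r)` is outside. -/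
def esc : ℕ → ℤ → ℤ → ℤ → Bool
  | 0, a, b, r => decide ((1265842 + r) ^ 2 < a ^ 2 + b ^ 2)
  | k + 1, a, b, r =>
    decide ((1265842 + r) ^ 2 < a ^ 2 + b ^ 2) ||
      (decide (a ^ 2 + b ^ 2 ≤ (bd a b) ^ 2 ∧ 0 ≤ bd a b) &&
      esc k ((a ^ 2 - b ^ 2) / 1048576 + 262144) (2 * a * b / 1048576)
        ((2 * bd a b * r + r ^ 2) / 1048576 + 3))

/-- `check n a b h`: the square with centre `(a, b)` and half side `h` is covered by discs that
escape, with at most `n` subdivisions. -/
def check : ℕ → ℤ → ℤ → ℤ → Bool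
  | 0, a, b, h => esc 14 a b (2 * h)
  | n + 1, a, b, h => esc 14 a b (2 * h) ||
      (check n (a + h / 2) (b + h / 2) (h - h / 2) && check n (a + h / 2) (b - h / 2) (h - h / 2) &&
        check n (a - h / 2) (b + h / 2) (h - h / 2) && check n (a - h / 2) (b - h / 2) (h - h / 2))

/-- The map `w ^ 2 + 1 / 4`. -/
noncomputable def f (w : ℂ) : ℂ := w ^ 2 + 1 / 4

/-- The point with integer coordinates `(a, b)` at scale `2 ^ 20`. -/
noncomputable def pt (a b : ℤ) : ℂ := ⟨a / 1048576, b / 1048576⟩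

theorem norm_pt_sq (a b : ℤ) : ‖pt a b‖ ^ 2 = ((a : ℝ) ^ 2 + b ^ 2) / 1048576 ^ 2 := by
  rw [Complex.sq_norm, Complex.normSq_apply]
  simp only [pt]
  ring

theorem outside {a b r : ℤ} (hr : 0 ≤ r) (h : (1265842 + r) ^ 2 < a ^ 2 + b ^ 2) (z : ℂ)
    (hz : ‖z - pt a b‖ ≤ r / 1048576) : 1.2072 < ‖z‖ := by
  have hr' : (0 : ℝ) ≤ r := by exact_mod_cast hr
  have h' : ((1265842 : ℝ) + r) ^ 2 < (a : ℝ) ^ 2 + (b : ℝ) ^ 2 := by exact_mod_cast h
  have h1 : ((1265842 : ℝ) + r) / 1048576 < ‖pt a b‖ := by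
    apply lt_of_pow_lt_pow_left₀ 2 (norm_nonneg _)
    rw [norm_pt_sq, div_pow]
    exact div_lt_div_of_pos_right h' (by norm_num)
  have h2 : ‖pt a b‖ ≤ ‖z‖ + ‖z - pt a b‖ := by
    have := norm_sub_le z (z - pt a b)
    rwa [sub_sub_cancel] at this
  have h3 : ((1265842 : ℝ) + r) / 1048576 = 1265842 / 1048576 + r / 1048576 := by ring
  rw [h3] at h1
  have h4 : (1.2072 : ℝ) < 1265842 / 1048576 := by norm_num
  linarith

theorem floor_bounds (x : ℤ) : 0 ≤ (x : ℝ) / 1048576 - ((x / 1048576 : ℤ) : ℝ) ∧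
    (x : ℝ) / 1048576 - ((x / 1048576 : ℤ) : ℝ) ≤ 1 := by
  have h1 := Int.emod_add_mul_ediv x 1048576
  have h2 := Int.emod_nonneg x (show (1048576 : ℤ) ≠ 0 by norm_num)
  have h3 := Int.emod_lt_of_pos x (show (0 : ℤ) < 1048576 by norm_num)
  have h4 : ((x % 1048576 : ℤ) : ℝ) + 1048576 * ((x / 1048576 : ℤ) : ℝ) = x := by exact_mod_cast h1
  have h5 : (0 : ℝ) ≤ ((x % 1048576 : ℤ) : ℝ) := by exact_mod_cast h2
  have h6 : ((x % 1048576 : ℤ) : ℝ) < 1048576 := by exact_mod_cast h3
  constructor <;> linarith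

theorem step {a b r s : ℤ} (hr : 0 ≤ r) (hs : 0 ≤ s) (h : a ^ 2 + b ^ 2 ≤ s ^ 2) (z : ℂ)
    (hz : ‖z - pt a b‖ ≤ r / 1048576) :
    ‖f z - pt ((a ^ 2 - b ^ 2) / 1048576 + 262144) (2 * a * b / 1048576)‖ ≤
      (((2 * s * r + r ^ 2) / 1048576 + 3 : ℤ) : ℝ) / 1048576 := by
  have hr' : (0 : ℝ) ≤ r := by exact_mod_cast hr
  have hs' : (0 : ℝ) ≤ s := by exact_mod_cast hs
  have h' : (a : ℝ) ^ 2 + (b : ℝ) ^ 2 ≤ (s : ℝ) ^ 2 := by exact_mod_cast h
  have h1 : ‖pt a b‖ ≤ s / 1048576 := by
    apply le_of_sq_le_sq _ (by positivity)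
    rw [norm_pt_sq, div_pow]
    exact div_le_div_of_nonneg_right h' (by norm_num)
  -- the exact image of the centre
  have h2 : ‖f z - (pt a b ^ 2 + 1 / 4)‖ ≤ (r / 1048576) * (r / 1048576 + 2 * (s / 1048576)) := by
    have e : f z - (pt a b ^ 2 + 1 / 4) = (z - pt a b) * ((z - pt a b) + 2 * pt a b) := by
      simp only [f]
      ring
    rw [e, norm_mul]
    have h3 : ‖(z - pt a b) + 2 * pt a b‖ ≤ r / 1048576 + 2 * (s / 1048576) := by
      refine (norm_add_le _ _).trans ?_
      rw [norm_mul]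
      have : ‖(2 : ℂ)‖ = 2 := by simp
      rw [this]
      linarith
    exact mul_le_mul hz h3 (norm_nonneg _) (by positivity)
  obtain ⟨u1, u2⟩ := floor_bounds (a ^ 2 - b ^ 2)
  obtain ⟨v1, v2⟩ := floor_bounds (2 * a * b)
  obtain ⟨w1, w2⟩ := floor_bounds (2 * s * r + r ^ 2)
  push_cast at u1 u2 v1 v2 w1 w2
  have h4 : ‖(pt a b ^ 2 + 1 / 4) -
      pt ((a ^ 2 - b ^ 2) / 1048576 + 262144) (2 * a * b / 1048576)‖ ≤ 2 / 1048576 := by
    refine (Complex.norm_le_abs_re_add_abs_im _).trans ?_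
    have e1 : ((pt a b ^ 2 + 1 / 4) -
        pt ((a ^ 2 - b ^ 2) / 1048576 + 262144) (2 * a * b / 1048576)).re =
        (((a : ℝ) ^ 2 - b ^ 2) / 1048576 - (((a ^ 2 - b ^ 2) / 1048576 : ℤ) : ℝ)) / 1048576 := by
      simp only [pt, Complex.sub_re, Complex.add_re, pow_two, Complex.mul_re]
      push_cast
      norm_num
      ring
    have e2 : ((pt a b ^ 2 + 1 / 4) -
        pt ((a ^ 2 - b ^ 2) / 1048576 + 262144) (2 * a * b / 1048576)).im =
        ((2 * (a : ℝ) * b) / 1048576 - ((2 * a * b / 1048576 : ℤ) : ℝ)) / 1048576 := by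
      simp only [pt, Complex.sub_im, Complex.add_im, pow_two, Complex.mul_im]
      norm_num
      ring
    rw [e1, e2, abs_of_nonneg (by positivity), abs_of_nonneg (by positivity)]
    linarith
  have h5 := norm_add_le (f z - (pt a b ^ 2 + 1 / 4)) ((pt a b ^ 2 + 1 / 4) -
      pt ((a ^ 2 - b ^ 2) / 1048576 + 262144) (2 * a * b / 1048576))
  rw [sub_add_sub_cancel] at h5
  refine h5.trans ((add_le_add h2 h4).trans ?_)
  push_cast
  have e3 : (r / 1048576 : ℝ) * (r / 1048576 + 2 * (s / 1048576)) =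
      ((2 * s * r + r ^ 2) / 1048576) / 1048576 := by ring
  rw [e3, ← add_div]
  apply div_le_div_of_nonneg_right _ (by norm_num)
  linarith

theorem esc_sound (k : ℕ) : ∀ (a b r : ℤ), 0 ≤ r → esc k a b r = true → ∀ z : ℂ,
    ‖z - pt a b‖ ≤ r / 1048576 → ∃ j : ℕ, 1.2072 < ‖f^[j] z‖ := by
  induction k with
  | zero =>
    intro a b r hr h z hz
    simp only [esc, decide_eq_true_eq] at h
    exact ⟨0, outside hr h z hz⟩
  | succ k ih =>
    intro a b r hr h z hz
    simp only [esc, Bool.or_eq_true, Bool.and_eq_true, decide_eq_true_eq] at h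
    rcases h with h | ⟨⟨h1, h2⟩, h3⟩
    · exact ⟨0, outside hr h z hz⟩
    · have hr' : 0 ≤ (2 * bd a b * r + r ^ 2) / 1048576 + 3 := by positivity
      obtain ⟨j, hj⟩ := ih _ _ _ hr' h3 (f z) (step hr h2 h1 z hz)
      exact ⟨j + 1, by rwa [Function.iterate_succ_apply]⟩

theorem check_sound (n : ℕ) : ∀ (a b h : ℤ), 0 ≤ h → check n a b h = true → ∀ z : ℂ,
    |1048576 * z.re - a| ≤ h → |1048576 * z.im - b| ≤ h → ∃ j : ℕ, 1.2072 < ‖f^[j] z‖ := by
  have base : ∀ (a b h : ℤ), 0 ≤ h → esc 14 a b (2 * h) = true → ∀ z : ℂ,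
      |1048576 * z.re - a| ≤ h → |1048576 * z.im - b| ≤ h → ∃ j : ℕ, 1.2072 < ‖f^[j] z‖ := by
    intro a b h hh he z hre him
    refine esc_sound 14 a b (2 * h) (by omega) he z ?_
    refine (Complex.norm_le_abs_re_add_abs_im _).trans ?_
    have e1 : (z - pt a b).re = (1048576 * z.re - a) / 1048576 := by
      simp only [pt, Complex.sub_re]
      ring
    have e2 : (z - pt a b).im = (1048576 * z.im - b) / 1048576 := by
      simp only [pt, Complex.sub_im]
      ring
    rw [e1, e2, abs_div, abs_div, abs_of_pos (by norm_num : (0 : ℝ) < 1048576), ← add_div]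
    apply div_le_div_of_nonneg_right _ (by norm_num)
    push_cast
    linarith
  induction n with
  | zero =>
    intro a b h hh hc
    exact base a b h hh hc
  | succ n ih =>
    intro a b h hh hc z hre him
    simp only [check, Bool.or_eq_true, Bool.and_eq_true] at hc
    rcases hc with hc | ⟨⟨⟨h1, h2⟩, h3⟩, h4⟩
    · exact base a b h hh hc z hre him
    · obtain ⟨q, hq⟩ : ∃ q, q = h / 2 := ⟨_, rfl⟩
      rw [← hq] at h1 h2 h3 h4
      have q0 : 0 ≤ h - q := by omega
      have q1 : q ≤ h - q := by omega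
      have q1' : (q : ℝ) ≤ h - q := by exact_mod_cast q1
      rw [abs_le] at hre him
      have hsplit : ∀ (x : ℝ) (c : ℤ), -(h : ℝ) ≤ x - c → x - c ≤ h →
          |x - ((c + q : ℤ) : ℝ)| ≤ ((h - q : ℤ) : ℝ) ∨ |x - ((c - q : ℤ) : ℝ)| ≤
            ((h - q : ℤ) : ℝ) := by
        intro x c hx1 hx2
        push_cast
        rcases le_total (c : ℝ) x with hx | hx
        · left
          rw [abs_le]
          constructor <;> linarith
        · right
          rw [abs_le]
          constructor <;> linarith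
      rcases hsplit _ a hre.1 hre.2 with ha | ha <;> rcases hsplit _ b him.1 him.2 with hb | hb
      · exact ih _ _ _ q0 h1 z ha hb
      · exact ih _ _ _ q0 h2 z ha hb
      · exact ih _ _ _ q0 h3 z ha hb
      · exact ih _ _ _ q0 h4 z ha hb

theorem check_lower : check 10 1135957 262144 262144 = true := by decide +kernel

theorem check_upper : check 10 1135957 786432 262144 = true := by decide +kernel

/-! ### Bounded orbits -/

theorem norm_iterate_le {w : ℂ} (hw : Preperiodic f w) (j : ℕ) : ‖f^[j] w‖ ≤ 1.2072 := by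
  -- the orbit point of largest norm
  obtain ⟨u, ⟨n, rfl⟩, hmax⟩ := hw.exists_maximalFor (fun z : ℂ => ‖z‖) _ ⟨w, 0, rfl⟩
  have hmax' : ∀ i : ℕ, ‖f^[i] w‖ ≤ ‖f^[n] w‖ := by
    intro i
    by_contra hcon
    push Not at hcon
    exact absurd (hmax ⟨i, rfl⟩ hcon.le) (not_le.mpr hcon)
  refine (hmax' j).trans ?_
  by_contra hcon
  push Not at hcon
  have h1 := hmax' (n + 1)
  rw [Function.iterate_succ_apply'] at h1
  have h2 : ‖f^[n] w‖ ^ 2 - 1 / 4 ≤ ‖f (f^[n] w)‖ := by
    have := norm_sub_le (f (f^[n] w)) (1 / 4 : ℂ)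
    have e : f (f^[n] w) - 1 / 4 = (f^[n] w) ^ 2 := by
      simp [f]
    rw [e, norm_pow] at this
    have h3 : ‖(1 / 4 : ℂ)‖ = 1 / 4 := by
      simp
    rw [h3] at this
    linarith
  nlinarith

theorem re_lt_of_im_nonneg {w : ℂ} (hw : Preperiodic f w) (him : 0 ≤ w.im) : w.re < 5 / 6 := by
  by_contra hcon
  push Not at hcon
  have h1 := norm_iterate_le hw 0
  simp only [Function.iterate_zero, id_eq] at h1
  have h2 : |w.re| ≤ 1.2072 := (Complex.abs_re_le_norm w).trans h1
  rw [abs_le] at h2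
  have h3 : w.re ^ 2 + w.im ^ 2 ≤ 1.2072 ^ 2 := by
    have h4 : ‖w‖ ^ 2 ≤ 1.2072 ^ 2 := pow_le_pow_left₀ (norm_nonneg _) h1 2
    rw [Complex.sq_norm, Complex.normSq_apply] at h4
    linarith
  have h5 : w.im ≤ 0.9 := by
    by_contra h6
    push Not at h6
    nlinarith
  have hre : |1048576 * w.re - ((1135957 : ℤ) : ℝ)| ≤ ((262144 : ℤ) : ℝ) := by
    rw [abs_le]
    push_cast
    constructor <;> linarith
  have key : ∃ j : ℕ, 1.2072 < ‖f^[j] w‖ := by
    rcases le_total w.im (1 / 2) with h7 | h7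
    · refine check_sound 10 _ _ _ (by norm_num) check_lower w hre ?_
      rw [abs_le]
      push_cast
      constructor <;> linarith
    · refine check_sound 10 _ _ _ (by norm_num) check_upper w hre ?_
      rw [abs_le]
      push_cast
      constructor <;> linarith
  obtain ⟨j, hj⟩ := key
  exact absurd (norm_iterate_le hw j) (not_le.mpr hj)

theorem conj_iterate (w : ℂ) (n : ℕ) :
    f^[n] ((starRingEnd ℂ) w) = (starRingEnd ℂ) (f^[n] w) := by
  induction n generalizing w with
  | zero => rfl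
  | succ n ih =>
    rw [Function.iterate_succ_apply, Function.iterate_succ_apply, ← ih]
    congr 1
    simp only [f, map_add, map_pow, map_div₀, map_one, map_ofNat]

theorem re_lt {w : ℂ} (hw : Preperiodic f w) : w.re < 5 / 6 := by
  rcases le_total 0 w.im with h | h
  · exact re_lt_of_im_nonneg hw h
  · have hw' : Preperiodic f ((starRingEnd ℂ) w) := by
      have h1 : (Set.range fun n : ℕ => f^[n] ((starRingEnd ℂ) w)) =
          (starRingEnd ℂ) '' (Set.range fun n : ℕ => f^[n] w) := by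
        rw [← Set.range_comp]
        congr 1
        funext n
        exact conj_iterate w n
      unfold Preperiodic
      rw [h1]
      exact hw.image _
    have h2 := re_lt_of_im_nonneg hw' (by simpa using h)
    simpa using h2

/-- A preperiodic point of `z ^ 2 + z` in `ℂ` has real part less than `1 / 3`. -/
theorem re_lt_third {z : ℂ} (hz : Preperiodic (fun z : ℂ => z ^ 2 + z) z) : z.re < 1 / 3 := by
  have hconj : ∀ n : ℕ, f^[n] (z + 1 / 2) = (fun z : ℂ => z ^ 2 + z)^[n] z + 1 / 2 := by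
    intro n
    induction n with
    | zero => rfl
    | succ n ih =>
      rw [Function.iterate_succ_apply', Function.iterate_succ_apply', ih]
      simp only [f]
      ring
  have h1 : Preperiodic f (z + 1 / 2) := by
    have h2 : (Set.range fun n : ℕ => f^[n] (z + 1 / 2)) =
        (fun x : ℂ => x + 1 / 2) '' (Set.range fun n : ℕ => (fun z : ℂ => z ^ 2 + z)^[n] z) := by
      rw [← Set.range_comp]
      congr 1
      funext n
      exact hconj n
    unfold Preperiodic
    rw [h2]
    exact hz.image _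
  have h3 := re_lt h1
  simp only [Complex.add_re] at h3
  norm_num at h3
  linarith

/-- There are no preperiodic points `a`, `b`, `c` (distinct or not) of `z ^ 2 + z` in the algebraic
closure of `ℚ` with `a + b + c = 1`. -/
theorem result : ¬ ∃ a b c : AlgebraicClosure ℚ,
    Preperiodic (fun z : AlgebraicClosure ℚ => z ^ 2 + z) a ∧
    Preperiodic (fun z : AlgebraicClosure ℚ => z ^ 2 + z) b ∧
    Preperiodic (fun z : AlgebraicClosure ℚ => z ^ 2 + z) c ∧ a + b + c = 1 := by
  rintro ⟨a, b, c, ha, hb, hc, hsum⟩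
  have halg : Algebra.IsAlgebraic ℚ (AlgebraicClosure ℚ) := AlgebraicClosure.isAlgebraic ℚ
  obtain ⟨φ⟩ : Nonempty (AlgebraicClosure ℚ →ₐ[ℚ] ℂ) := ⟨IsAlgClosed.lift⟩
  have hpre : ∀ x : AlgebraicClosure ℚ, Preperiodic (fun z : AlgebraicClosure ℚ => z ^ 2 + z) x →
      (φ x).re < 1 / 3 := by
    intro x hx
    apply re_lt_third
    have h2 : (Set.range fun n : ℕ => (fun z : ℂ => z ^ 2 + z)^[n] (φ x)) =
        φ '' (Set.range fun n : ℕ => (fun z : AlgebraicClosure ℚ => z ^ 2 + z)^[n] x) := by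
      rw [← Set.range_comp]
      congr 1
      funext n
      show (fun z : ℂ => z ^ 2 + z)^[n] (φ x) =
        φ ((fun z : AlgebraicClosure ℚ => z ^ 2 + z)^[n] x)
      induction n with
      | zero => rfl
      | succ n ih =>
        rw [Function.iterate_succ_apply', Function.iterate_succ_apply', ih]
        simp
    unfold Preperiodic
    rw [h2]
    exact hx.image _
  have h1 := congrArg (fun x => (φ x).re) hsum
  simp only [map_add, map_one, Complex.add_re, Complex.one_re] at h1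
  have h2 := hpre a ha
  have h3 := hpre b hb
  have h4 := hpre c hc
  linarith

end Pool.Agent.Results.MP_a37635_nt.NoSumOne
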